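import Pool.Agent.H88.CR.Targets
import Pool.Agent.H42.WR.REN

/-!
A norm which is a sum of squares (row SQN).
-/

set_option autoImplicit false

open Filter Topology Set Pool.Agent.H85.WMP Pool.Agent.H88.WR Pool.Agent.H88.CR

namespace Pool.Agent.H35.CR

theorem sq_le_aux (a b c l : ℝ) (hl : 0 < l) (hc0 : 0 ≤ c) (hc : c ≤ a + b) :
    c ^ 2 ≤ (1 + l) * a ^ 2 + (1 + l⁻¹) * b ^ 2 := by
  have h1 : c ^ 2 ≤ (a + b) ^ 2 := pow_le_pow_left₀ hc0 hc 2
  have h2 : 0 ≤ l⁻¹ * (l * a - b) ^ 2 := by positivity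
  have h3 : l⁻¹ * (l * a - b) ^ 2 = l * a ^ 2 - 2 * a * b + l⁻¹ * b ^ 2 := by
    field_simp
    ring
  nlinarith

theorem pf_SQN (𝕜 : Type) [RCLike 𝕜] : T_SQN 𝕜 := by
  intro F _ _ p hp0 hp1 hpadd hpsm
  have hw : Summable (fun k : ℕ => (1 / 2 : ℝ) ^ (k + 1)) := by
    have h := summable_geometric_two.mul_right (1 / 2 : ℝ)
    simpa [pow_succ] using h
  have hws : ∑' k : ℕ, (1 / 2 : ℝ) ^ (k + 1) = 1 := by
    simp_rw [pow_succ]
    rw [tsum_mul_right, tsum_geometric_two]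
    norm_num
  have hsum : ∀ x : F, Summable (fun k => (1 / 2 : ℝ) ^ (k + 1) * p k x ^ 2) := by
    intro x
    refine Summable.of_nonneg_of_le (fun k => by positivity) (fun k => ?_)
      (hw.mul_right (‖x‖ ^ 2))
    exact mul_le_mul_of_nonneg_left (pow_le_pow_left₀ (hp0 k x) (hp1 k x) 2) (by positivity)
  obtain ⟨Q, hQ⟩ : ∃ Q : F → ℝ, ∀ x, Q x = ‖x‖ ^ 2 + ∑' k, (1 / 2 : ℝ) ^ (k + 1) * p k x ^ 2 :=
    ⟨_, fun _ => rfl⟩
  have hQ0 : ∀ x, ‖x‖ ^ 2 ≤ Q x := by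
    intro x
    rw [hQ]
    exact le_add_of_nonneg_right (tsum_nonneg fun k => by positivity)
  have hQn : ∀ x, 0 ≤ Q x := fun x => (sq_nonneg _).trans (hQ0 x)
  have hQ2 : ∀ x, Q x ≤ 2 * ‖x‖ ^ 2 := by
    intro x
    have h1 : ∑' k, (1 / 2 : ℝ) ^ (k + 1) * p k x ^ 2 ≤ ∑' k : ℕ, (1 / 2 : ℝ) ^ (k + 1) * ‖x‖ ^ 2 :=
      (hsum x).tsum_le_tsum (fun k =>
        mul_le_mul_of_nonneg_left (pow_le_pow_left₀ (hp0 k x) (hp1 k x) 2) (by positivity))
        (hw.mul_right _)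
    rw [tsum_mul_right, hws] at h1
    rw [hQ]
    linarith
  have hQadd : ∀ (x y : F) (l : ℝ), 0 < l → Q (x + y) ≤ (1 + l) * Q x + (1 + l⁻¹) * Q y := by
    intro x y l hl
    have h1 : ∑' k, (1 / 2 : ℝ) ^ (k + 1) * p k (x + y) ^ 2 ≤
        ∑' k, ((1 + l) * ((1 / 2 : ℝ) ^ (k + 1) * p k x ^ 2) +
          (1 + l⁻¹) * ((1 / 2 : ℝ) ^ (k + 1) * p k y ^ 2)) := by
      refine (hsum _).tsum_le_tsum (fun k => ?_)
        (((hsum x).mul_left _).add ((hsum y).mul_left _))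
      have h2 := sq_le_aux (p k x) (p k y) (p k (x + y)) l hl (hp0 k _) (hpadd k x y)
      have h3 : (0 : ℝ) ≤ (1 / 2 : ℝ) ^ (k + 1) := by positivity
      calc (1 / 2 : ℝ) ^ (k + 1) * p k (x + y) ^ 2 ≤
          (1 / 2 : ℝ) ^ (k + 1) * ((1 + l) * p k x ^ 2 + (1 + l⁻¹) * p k y ^ 2) :=
            mul_le_mul_of_nonneg_left h2 h3
        _ = _ := by ring
    rw [((hsum x).mul_left _).tsum_add ((hsum y).mul_left _), tsum_mul_left, tsum_mul_left] at h1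
    have h4 := sq_le_aux ‖x‖ ‖y‖ ‖x + y‖ l hl (norm_nonneg _) (norm_add_le x y)
    rw [hQ, hQ x, hQ y]
    linarith
  have hQs : ∀ (c : 𝕜) (x : F), Q (c • x) = ‖c‖ ^ 2 * Q x := by
    intro c x
    rw [hQ, hQ x, norm_smul, mul_add, ← tsum_mul_left, mul_pow]
    congr 1
    refine tsum_congr fun k => ?_
    rw [hpsm]
    ring
  have hpos : ∀ x : F, x ≠ 0 → 0 < Real.sqrt (Q x) := by
    intro x hx
    refine Real.sqrt_pos.2 (lt_of_lt_of_le ?_ (hQ0 x))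
    have := norm_pos_iff.2 hx
    positivity
  obtain ⟨F', i1, i2, e, he⟩ := Pool.Agent.H42.WR.newnorm 𝕜 F (fun x => Real.sqrt (Q x))
    (by
      intro x y
      by_cases hx : x = 0
      · rw [hx, zero_add]
        exact le_add_of_nonneg_left (Real.sqrt_nonneg _)
      by_cases hy : y = 0
      · rw [hy, add_zero]
        exact le_add_of_nonneg_right (Real.sqrt_nonneg _)
      have hs := hpos x hx
      have ht := hpos y hy
      refine Real.sqrt_le_iff.2 ⟨by positivity, ?_⟩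
      have h1 := hQadd x y (Real.sqrt (Q y) / Real.sqrt (Q x)) (by positivity)
      have hx2 : Real.sqrt (Q x) ^ 2 = Q x := Real.sq_sqrt (hQn x)
      have hy2 : Real.sqrt (Q y) ^ 2 = Q y := Real.sq_sqrt (hQn y)
      rw [← hx2, ← hy2] at h1
      have h2 : (1 + Real.sqrt (Q y) / Real.sqrt (Q x)) * Real.sqrt (Q x) ^ 2 +
          (1 + (Real.sqrt (Q y) / Real.sqrt (Q x))⁻¹) * Real.sqrt (Q y) ^ 2 =
          (Real.sqrt (Q x) + Real.sqrt (Q y)) ^ 2 := by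
        field_simp
        ring
      have h3 : Real.sqrt (Real.sqrt (Q x) ^ 2) = Real.sqrt (Q x) := by rw [hx2]
      have h4 : Real.sqrt (Real.sqrt (Q y) ^ 2) = Real.sqrt (Q y) := by rw [hy2]
      rw [h3, h4, h2] at h1
      exact h1)
    (by
      intro c x
      show Real.sqrt (Q (c • x)) = ‖c‖ * Real.sqrt (Q x)
      rw [hQs, Real.sqrt_mul (sq_nonneg _), Real.sqrt_sq (norm_nonneg _)]) 1 2 one_pos
    (by
      intro x
      rw [one_mul]
      exact Real.le_sqrt_of_sq_le (hQ0 x))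
    (by
      intro x
      refine Real.sqrt_le_iff.2 ⟨by positivity, ?_⟩
      have := hQ2 x
      nlinarith [sq_nonneg ‖x‖])
  have he2 : ∀ y : F', ‖y‖ ^ 2 = Q (e y) := by
    intro y
    rw [he y]
    exact Real.sq_sqrt (hQn _)
  refine ⟨F', i1, i2, e, ?_, ?_, ?_⟩
  · intro y
    rw [he y]
    exact Real.le_sqrt_of_sq_le (hQ0 _)
  · intro y
    rw [he y]
    refine Real.sqrt_le_iff.2 ⟨by positivity, ?_⟩
    have := hQ2 (e y)
    nlinarith [sq_nonneg ‖e y‖]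
  · intro x y
    have hd : ∀ k, 0 ≤ (1 / 2 : ℝ) ^ (k + 1) *
        (2 * p k (e x) ^ 2 + 2 * p k (e y) ^ 2 - p k (e x + e y) ^ 2) := by
      intro k
      have h1 := pow_le_pow_left₀ (hp0 k (e x + e y)) (hpadd k (e x) (e y)) 2
      refine mul_nonneg (by positivity) ?_
      nlinarith [sq_nonneg (p k (e x) - p k (e y))]
    have hn : 0 ≤ 2 * ‖e x‖ ^ 2 + 2 * ‖e y‖ ^ 2 - ‖e x + e y‖ ^ 2 := by
      have h1 := pow_le_pow_left₀ (norm_nonneg (e x + e y)) (norm_add_le (e x) (e y)) 2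
      nlinarith [sq_nonneg (‖e x‖ - ‖e y‖)]
    have hsd : Summable (fun k => (1 / 2 : ℝ) ^ (k + 1) *
        (2 * p k (e x) ^ 2 + 2 * p k (e y) ^ 2 - p k (e x + e y) ^ 2)) := by
      have h1 := (((hsum (e x)).mul_left 2).add ((hsum (e y)).mul_left 2)).sub (hsum (e x + e y))
      refine h1.congr fun k => ?_
      ring
    have hD : Df x y = (2 * ‖e x‖ ^ 2 + 2 * ‖e y‖ ^ 2 - ‖e x + e y‖ ^ 2) +
        ∑' k, (1 / 2 : ℝ) ^ (k + 1) *
          (2 * p k (e x) ^ 2 + 2 * p k (e y) ^ 2 - p k (e x + e y) ^ 2) := by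
      have h1 : ∑' k, (1 / 2 : ℝ) ^ (k + 1) *
          (2 * p k (e x) ^ 2 + 2 * p k (e y) ^ 2 - p k (e x + e y) ^ 2) =
          ∑' k, (2 * ((1 / 2 : ℝ) ^ (k + 1) * p k (e x) ^ 2) +
            2 * ((1 / 2 : ℝ) ^ (k + 1) * p k (e y) ^ 2) -
              (1 / 2 : ℝ) ^ (k + 1) * p k (e x + e y) ^ 2) :=
        tsum_congr fun k => by ring
      rw [h1, (((hsum (e x)).mul_left 2).add ((hsum (e y)).mul_left 2)).tsum_sub
        (hsum (e x + e y)), ((hsum (e x)).mul_left 2).tsum_add ((hsum (e y)).mul_left 2),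
        tsum_mul_left, tsum_mul_left]
      unfold Df
      rw [he2, he2, he2, map_add, hQ, hQ, hQ]
      ring
    refine ⟨?_, fun k => ?_⟩
    · rw [hD]
      exact add_nonneg hn (tsum_nonneg hd)
    · rw [hD]
      have h1 := hsd.le_tsum k (fun j _ => hd j)
      linarith

end Pool.Agent.H35.CR
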